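import Mathlib

/-!
# Three arcs in `ZMod n`, `n = 3k + 1`: the arithmetic configuration
-/

set_option autoImplicit false

namespace Pool.Agent.Helper92.FF

/-- three arcs with starts `s i` and lengths `a i` (integer representatives) -/
structure Cfg (n k : ℤ) (s a : Fin 3 → ℤ) : Prop where
  hn : n = 3 * k + 1
  hk : 6 ≤ k
  hev : k % 2 = 0
  pos : ∀ i, 1 ≤ a i
  sum : a 0 + a 1 + a 2 = k
  D1 : ∀ i j, i ≠ j → ∀ c, 0 ≤ c → c ≤ a i → ¬ n ∣ s i + c - s j
  D2 : ∀ i j, i ≠ j → ∀ c, 0 ≤ c → c ≤ a i → ¬ n ∣ s i + c - (s j + a j)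
  J : ∀ i j l, ∀ c, 0 ≤ c → c ≤ a i + a j + a l - 3 → ¬ n ∣ s i + s j + s l + c

/-- the conclusion: the set of the three arcs meets one of its translates in all but at most two
points -/
def Concl (n : ℤ) (s a : Fin 3 → ℤ) : Prop :=
  ∃ σ u v : ℤ, ¬ n ∣ σ ∧ ∀ i, ∀ c : ℤ, 0 ≤ c → c < a i →
    n ∣ s i + c - u ∨ n ∣ s i + c - v ∨
      ∃ j, ∃ d : ℤ, 0 ≤ d ∧ d < a j ∧ n ∣ s i + c + σ - (s j + d)

variable {n k : ℤ} {s a : Fin 3 → ℤ}

lemma fin3_cases (i j l m : Fin 3) (hij : i ≠ j) (hil : i ≠ l) (hjl : j ≠ l) :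
    m = i ∨ m = j ∨ m = l := by
  revert i j l m; decide

lemma Cfg.sum' (C : Cfg n k s a) {i j l : Fin 3} (hij : i ≠ j) (hil : i ≠ l) (hjl : j ≠ l) :
    a i + a j + a l = k := by
  have h := C.sum
  fin_cases i <;> fin_cases j <;> fin_cases l <;> simp at hij hil hjl ⊢ <;> omega

/-- change of representatives -/
lemma Cfg.congr (C : Cfg n k s a) {s' : Fin 3 → ℤ} (h : ∀ i, n ∣ s i - s' i) : Cfg n k s' a where
  hn := C.hn
  hk := C.hk
  hev := C.hev
  pos := C.pos
  sum := C.sum
  D1 := fun i j hij c h0 h1 hd => C.D1 i j hij c h0 h1 (by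
    have := dvd_add hd (dvd_sub (h i) (h j))
    have e : s' i + c - s' j + (s i - s' i - (s j - s' j)) = s i + c - s j := by ring
    rwa [e] at this)
  D2 := fun i j hij c h0 h1 hd => C.D2 i j hij c h0 h1 (by
    have := dvd_add hd (dvd_sub (h i) (h j))
    have e : s' i + c - (s' j + a j) + (s i - s' i - (s j - s' j)) = s i + c - (s j + a j) := by
      ring
    rwa [e] at this)
  J := fun i j l c h0 h1 hd => C.J i j l c h0 h1 (by
    have := dvd_add hd (dvd_add (dvd_add (h i) (h j)) (h l))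
    have e : s' i + s' j + s' l + c + (s i - s' i + (s j - s' j) + (s l - s' l)) =
        s i + s j + s l + c := by ring
    rwa [e] at this)

lemma Concl.congr {s' : Fin 3 → ℤ} (h : ∀ i, n ∣ s i - s' i) (H : Concl n s' a) :
    Concl n s a := by
  obtain ⟨σ, u, v, hσ, H⟩ := H
  refine ⟨σ, u, v, hσ, fun i c h0 h1 => ?_⟩
  rcases H i c h0 h1 with h2 | h2 | ⟨j, d, hd0, hd1, h2⟩
  · refine Or.inl ?_
    have := dvd_add h2 (h i)
    have e : s' i + c - u + (s i - s' i) = s i + c - u := by ring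
    rwa [e] at this
  · refine Or.inr (Or.inl ?_)
    have := dvd_add h2 (h i)
    have e : s' i + c - v + (s i - s' i) = s i + c - v := by ring
    rwa [e] at this
  · refine Or.inr (Or.inr ⟨j, d, hd0, hd1, ?_⟩)
    have := dvd_add h2 (dvd_sub (h i) (h j))
    have e : s' i + c + σ - (s' j + d) + (s i - s' i - (s j - s' j)) =
        s i + c + σ - (s j + d) := by ring
    rwa [e] at this

/-- (J) in a form for `omega`: `T` is used with numerals -/
lemma Cfg.JT (C : Cfg n k s a) (i j l : Fin 3) (T : ℤ) :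
    n * T < s i + s j + s l ∨ s i + s j + s l + a i + a j + a l - 3 < n * T := by
  by_contra hcon
  push Not at hcon
  exact C.J i j l (n * T - (s i + s j + s l)) (by linarith [hcon.1]) (by linarith [hcon.2])
    ⟨T, by ring⟩

lemma Cfg.D1T (C : Cfg n k s a) {i j : Fin 3} (hij : i ≠ j) (T : ℤ) :
    s j + n * T < s i ∨ s i + a i < s j + n * T := by
  by_contra hcon
  push Not at hcon
  exact C.D1 i j hij (s j + n * T - s i) (by linarith [hcon.1]) (by linarith [hcon.2])
    ⟨T, by ring⟩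

lemma Cfg.D2T (C : Cfg n k s a) {i j : Fin 3} (hij : i ≠ j) (T : ℤ) :
    s j + a j + n * T < s i ∨ s i + a i < s j + a j + n * T := by
  by_contra hcon
  push Not at hcon
  exact C.D2 i j hij (s j + a j + n * T - s i) (by linarith [hcon.1]) (by linarith [hcon.2])
    ⟨T, by ring⟩

/-- a bounded multiple -/
lemma dvd_bdd {n e : ℤ} (hn : 0 < n) (hd : n ∣ e) (lo hi : ℤ) (h1 : n * lo < e + n)
    (h2 : e < n * hi + n) : ∃ t, lo ≤ t ∧ t ≤ hi ∧ e = n * t := by
  obtain ⟨t, rfl⟩ := hd
  refine ⟨t, ?_, ?_, rfl⟩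
  · by_contra hcon
    push Not at hcon
    have : n * (t + 1) ≤ n * lo := mul_le_mul_of_nonneg_left (by omega) hn.le
    linarith
  · by_contra hcon
    push Not at hcon
    have : n * (hi + 1) ≤ n * t := mul_le_mul_of_nonneg_left (by omega) hn.le
    linarith

/-- the same multiset cannot be good both for the starts and for the ends -/
lemma Cfg.same (C : Cfg n k s a) {i j l : Fin 3} (h1 : n ∣ s i + s j + s l - 1)
    (h2 : n ∣ s i + a i + (s j + a j) + (s l + a l) - 2) : False := by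
  have hd := dvd_sub h2 h1
  have e : s i + a i + (s j + a j) + (s l + a l) - 2 - (s i + s j + s l - 1) =
    a i + a j + a l - 1 := by ring
  rw [e] at hd
  have hp := C.pos
  have h0 := C.sum
  have hle : ∀ m, a m ≤ k - 2 := by
    intro m
    have a0 := hp 0
    have a1 := hp 1
    have a2 := hp 2
    fin_cases m <;> simp <;> omega
  have := C.hn
  have := C.hk
  obtain ⟨t, ht1, ht2, ht⟩ := dvd_bdd (by omega) hd 0 0 (by have := hp i; have := hp j; have := hp l; omega)
    (by have := hle i; have := hle j; have := hle l; omega)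
  have ht0 : t = 0 := by omega
  subst ht0
  have := hp i
  have := hp j
  have := hp l
  omega

/-- normalised representatives -/
lemma exists_repr {i j l : Fin 3} (hij : i ≠ j) (hil : i ≠ l) (hjl : j ≠ l) {X Y Z : ℤ}
    (h1 : n ∣ s i - X) (h2 : n ∣ s j - Y) (h3 : n ∣ s l - Z) :
    ∃ s' : Fin 3 → ℤ, s' i = X ∧ s' j = Y ∧ s' l = Z ∧ ∀ m, n ∣ s m - s' m := by
  refine ⟨fun m => if m = i then X else if m = j then Y else Z, ?_, ?_, ?_, ?_⟩
  · simp
  · simp [hij.symm]
  · simp [hil.symm, hjl.symm]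
  · intro m
    rcases fin3_cases i j l m hij hil hjl with rfl | rfl | rfl
    · simpa using h1
    · simpa [hij.symm] using h2
    · simpa [hil.symm, hjl.symm] using h3

/-- the number `3` can be cancelled -/
lemma Cfg.cancel3 (C : Cfg n k s a) {e : ℤ} (h : n ∣ 3 * e) : n ∣ e := by
  have h1 : e = n * e - k * (3 * e) := by rw [C.hn]; ring
  rw [h1]
  exact dvd_sub (dvd_mul_right _ _) (dvd_mul_of_dvd_right h _)

end Pool.Agent.Helper92.FF
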