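import Mathlib
import Pool.Agent.Helper92.FF.P8Defs

/-!
# Three arcs: the cases `(T2, T2')`
-/

set_option autoImplicit false

namespace Pool.Agent.Helper92.FF

variable {n k : ℤ} {s a : Fin 3 → ℤ}

/-- normal form in type T2 -/
lemma Cfg.normT2 {i j l : Fin 3} (hij : i ≠ j) (hil : i ≠ l) (hjl : j ≠ l)
    (S1 : n ∣ 2 * s i + s j - 1) (S2 : n ∣ 2 * s j + s l - 1) (X : ℤ) (hX : n ∣ s i - X) :
    ∃ s' : Fin 3 → ℤ, s' i = X ∧ s' j = 1 - 2 * X ∧ s' l = 4 * X - 1 ∧
      ∀ m, n ∣ s m - s' m := by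
  apply exists_repr hij hil hjl hX
  · have h := dvd_sub S1 (dvd_mul_of_dvd_right hX 2)
    have e : 2 * s i + s j - 1 - 2 * (s i - X) = s j - (1 - 2 * X) := by ring
    rwa [e] at h
  · have h := dvd_sub S1 (dvd_mul_of_dvd_right hX 2)
    have h2 := dvd_sub S2 (dvd_mul_of_dvd_right h 2)
    have e : 2 * s j + s l - 1 - 2 * (2 * s i + s j - 1 - 2 * (s i - X)) = s l - (4 * X - 1) := by
      ring
    rwa [e] at h2

lemma case_22_ilj (C : Cfg n k s a) {i j l : Fin 3} (hij : i ≠ j) (hil : i ≠ l) (hjl : j ≠ l)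
    (S1 : n ∣ 2 * s i + s j - 1) (S2 : n ∣ 2 * s j + s l - 1)
    (E1 : n ∣ 2 * (s i + a i) + (s l + a l) - 2) (E2 : n ∣ 2 * (s l + a l) + (s j + a j) - 2) :
    Concl n s a := by
  obtain ⟨s', hi, hj, hl, hs⟩ := Cfg.normT2 hij hil hjl S1 S2 (s i) (by simp)
  have C' := C.congr hs
  have hsum := C.sum' hij hil hjl
  have pi := C.pos i
  have pj := C.pos j
  have pl := C.pos l
  have hn := C.hn
  have hk := C.hk
  have hev := C.hev
  set x := s i with hx
  -- first equation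
  have F1 : n ∣ 6 * x + 2 * a i + a l - 3 := by
    have h := dvd_sub E1 (hs l)
    have e : 2 * (x + a i) + (s l + a l) - 2 - (s l - s' l) = 6 * x + 2 * a i + a l - 3 := by
      rw [hl]; ring
    rwa [e] at h
  have F2 : n ∣ 6 * x + 2 * a l + a j - 3 := by
    have h := dvd_sub (dvd_sub E2 (dvd_mul_of_dvd_right (hs l) 2)) (hs j)
    have e : 2 * (s l + a l) + (s j + a j) - 2 - 2 * (s l - s' l) - (s j - s' j) =
        6 * x + 2 * a l + a j - 3 := by
      rw [hl, hj]; ring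
    rwa [e] at h
  have F3 : a j + a l = 2 * a i := by
    have h := dvd_sub F1 F2
    have e : 6 * x + 2 * a i + a l - 3 - (6 * x + 2 * a l + a j - 3) = 2 * a i - a l - a j := by
      ring
    rw [e] at h
    obtain ⟨t, h1, h2, h3⟩ := dvd_bdd (by omega) h 0 0 (by omega) (by omega)
    have : t = 0 := by omega
    subst this
    omega
  obtain ⟨t, ht⟩ := F1
  rcases Int.even_or_odd' t with ⟨τ, rfl | rfl⟩
  · -- `t` even
    exfalso
    have h1 := C'.JT i i i τ
    rw [hi] at h1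
    have h2 : n * (2 * τ) = 2 * (n * τ) := by ring
    rw [h2] at ht
    generalize n * τ = P at *
    omega
  · have h1 := C'.JT i j j (-τ)
    have h2 := C'.JT i l l (3 * τ + 1)
    rw [hi, hj] at h1
    rw [hi, hl] at h2
    have e1 : n * (-τ) = -(n * τ) := by ring
    have e2 : n * (3 * τ + 1) = 3 * (n * τ) + n := by ring
    have e3 : n * (2 * τ + 1) = 2 * (n * τ) + n := by ring
    rw [e1] at h1
    rw [e2] at h2
    rw [e3] at ht
    have h3 : a l = a i ∧ a j = a i := by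
      generalize n * τ = P at *
      omega
    obtain ⟨h4, h5⟩ := h3
    have h6 : n = 9 * a i + 1 := by omega
    have h7 : n ∣ 3 * (x - (4 * a i + 1)) := by
      refine ⟨τ - 1, ?_⟩
      have : n * (τ - 1) = n * τ - n := by ring
      rw [this]
      generalize n * τ = P at *
      omega
    have h8 := C.cancel3 h7
    obtain ⟨s'', gi, gj, gl, gs⟩ := Cfg.normT2 hij hil hjl S1 S2 (4 * a i + 1) h8
    apply Concl.congr gs
    refine ⟨3 * a i + 1, 8 * a i, 8 * a i + 1, ?_, ?_⟩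
    · intro hd
      obtain ⟨t, h1, h2, h3⟩ := dvd_bdd (by omega) hd 0 0 (by omega) (by omega)
      have : t = 0 := by omega
      subst this
      omega
    · intro m c h0 hc
      rcases fin3_cases i j l m hij hil hjl with rfl | rfl | rfl
      · exact Or.inr (Or.inr ⟨l, c, h0, by omega, -1, by rw [gi, gl]; omega⟩)
      · exact Or.inr (Or.inr ⟨i, c, h0, by omega, -1, by rw [gj, gi]; omega⟩)
      · by_cases h9 : c = a m - 2
        · exact Or.inl ⟨1, by rw [gl]; omega⟩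
        · by_cases h10 : c = a m - 1
          · exact Or.inr (Or.inl ⟨1, by rw [gl]; omega⟩)
          · exact Or.inr (Or.inr ⟨j, c + 2, by omega, by omega, 3, by rw [gl, gj]; omega⟩)

lemma case_22_jil (C : Cfg n k s a) {i j l : Fin 3} (hij : i ≠ j) (hil : i ≠ l) (hjl : j ≠ l)
    (S1 : n ∣ 2 * s i + s j - 1) (S2 : n ∣ 2 * s j + s l - 1)
    (E1 : n ∣ 2 * (s j + a j) + (s i + a i) - 2) (E2 : n ∣ 2 * (s i + a i) + (s l + a l) - 2) :
    Concl n s a := by
  obtain ⟨s', hi, hj, hl, hs⟩ := Cfg.normT2 hij hil hjl S1 S2 (s i) (by simp)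
  have C' := C.congr hs
  have hsum := C.sum' hij hil hjl
  have pi := C.pos i
  have pj := C.pos j
  have pl := C.pos l
  have hn := C.hn
  have hk := C.hk
  have hev := C.hev
  set x := s i with hx
  have F1 : n ∣ a i + 2 * a j - 3 * x := by
    have h := dvd_sub E1 (dvd_mul_of_dvd_right (hs j) 2)
    have e : 2 * (s j + a j) + (x + a i) - 2 - 2 * (s j - s' j) = a i + 2 * a j - 3 * x := by
      rw [hj]; ring
    rwa [e] at h
  have F2 : n ∣ 6 * x + 2 * a i + a l - 3 := by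
    have h := dvd_sub E2 (hs l)
    have e : 2 * (x + a i) + (s l + a l) - 2 - (s l - s' l) = 6 * x + 2 * a i + a l - 3 := by
      rw [hl]; ring
    rwa [e] at h
  have F3 : a i + a j = 2 * a l + 4 := by
    have h := dvd_sub (dvd_add F2 (dvd_mul_of_dvd_right F1 2)) (dvd_refl n)
    have e : 6 * x + 2 * a i + a l - 3 + 2 * (a i + 2 * a j - 3 * x) - n =
        4 * a i + 4 * a j + a l - 3 - n := by ring
    rw [e] at h
    obtain ⟨t, h1, h2, h3⟩ := dvd_bdd (by omega) h (-1) 0 (by omega) (by omega)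
    have : t = 0 ∨ t = -1 := by omega
    rcases this with rfl | rfl <;> omega
  obtain ⟨τ, hτ⟩ := F1
  have h1 := C'.JT i l l (-(3 * τ) + 1)
  have h2 := C'.JT j l l (-(2 * τ) + 1)
  rw [hi, hl] at h1
  rw [hj, hl] at h2
  have e1 : n * (-(3 * τ) + 1) = -(3 * (n * τ)) + n := by ring
  have e2 : n * (-(2 * τ) + 1) = -(2 * (n * τ)) + n := by ring
  rw [e1] at h1
  rw [e2] at h2
  have h3 : a j = a l + 2 ∧ a i = a l + 2 := by
    generalize n * τ = P at *
    omega
  obtain ⟨h4, h5⟩ := h3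
  have h6 : n = 9 * a l + 13 := by omega
  have h7 : n ∣ 3 * (x - (a l + 2)) := ⟨-τ, by
    have : n * (-τ) = -(n * τ) := by ring
    rw [this]
    omega⟩
  have h8 := C.cancel3 h7
  obtain ⟨s'', gi, gj, gl, gs⟩ := Cfg.normT2 hij hil hjl S1 S2 (a l + 2) h8
  apply Concl.congr gs
  refine ⟨3 * a l + 5, 2 * a l + 2, 2 * a l + 3, ?_, ?_⟩
  · intro hd
    obtain ⟨t, h1, h2, h3⟩ := dvd_bdd (by omega) hd 0 0 (by omega) (by omega)
    have : t = 0 := by omega
    subst this
    omega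
  · intro m c h0 hc
    rcases fin3_cases i j l m hij hil hjl with rfl | rfl | rfl
    · by_cases h9 : c = a m - 2
      · exact Or.inl ⟨0, by rw [gi]; omega⟩
      · by_cases h10 : c = a m - 1
        · exact Or.inr (Or.inl ⟨0, by rw [gi]; omega⟩)
        · exact Or.inr (Or.inr ⟨l, c, by omega, by omega, 0, by rw [gi, gl]; omega⟩)
    · exact Or.inr (Or.inr ⟨i, c, h0, by omega, 0, by rw [gj, gi]; omega⟩)
    · exact Or.inr (Or.inr ⟨j, c + 2, by omega, by omega, 1, by rw [gl, gj]; omega⟩)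

lemma case_22_lji (C : Cfg n k s a) {i j l : Fin 3} (hij : i ≠ j) (hil : i ≠ l) (hjl : j ≠ l)
    (S1 : n ∣ 2 * s i + s j - 1) (S2 : n ∣ 2 * s j + s l - 1)
    (E1 : n ∣ 2 * (s l + a l) + (s j + a j) - 2) (E2 : n ∣ 2 * (s j + a j) + (s i + a i) - 2) :
    Concl n s a := by
  obtain ⟨s', hi, hj, hl, hs⟩ := Cfg.normT2 hij hil hjl S1 S2 (s i) (by simp)
  have C' := C.congr hs
  have hsum := C.sum' hij hil hjl
  have pi := C.pos i
  have pj := C.pos j
  have pl := C.pos l
  have hn := C.hn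
  have hk := C.hk
  have hev := C.hev
  set x := s i with hx
  have F1 : n ∣ a i + 2 * a j - 3 * x := by
    have h := dvd_sub E2 (dvd_mul_of_dvd_right (hs j) 2)
    have e : 2 * (s j + a j) + (x + a i) - 2 - 2 * (s j - s' j) = a i + 2 * a j - 3 * x := by
      rw [hj]; ring
    rwa [e] at h
  have F2 : n ∣ 6 * x + 2 * a l + a j - 3 := by
    have h := dvd_sub (dvd_sub E1 (dvd_mul_of_dvd_right (hs l) 2)) (hs j)
    have e : 2 * (s l + a l) + (s j + a j) - 2 - 2 * (s l - s' l) - (s j - s' j) =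
        6 * x + 2 * a l + a j - 3 := by
      rw [hl, hj]; ring
    rwa [e] at h
  have F3 : 3 * a j = k + 4 := by
    have h := dvd_add F2 (dvd_mul_of_dvd_right F1 2)
    have e : 6 * x + 2 * a l + a j - 3 + 2 * (a i + 2 * a j - 3 * x) =
        2 * a i + 5 * a j + 2 * a l - 3 := by ring
    rw [e] at h
    obtain ⟨t, h1, h2, h3⟩ := dvd_bdd (by omega) h 1 1 (by omega) (by omega)
    have : t = 1 := by omega
    subst this
    omega
  obtain ⟨τ, hτ⟩ := F1
  have h1 := C'.JT i l l (-(3 * τ) + 1)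
  have h2 := C'.JT i i l (-(2 * τ) + 1)
  rw [hi, hl] at h1 h2
  have e1 : n * (-(3 * τ) + 1) = -(3 * (n * τ)) + n := by ring
  have e2 : n * (-(2 * τ) + 1) = -(2 * (n * τ)) + n := by ring
  rw [e1] at h1
  rw [e2] at h2
  have h3 : a l = a j - 2 ∧ a i = a j - 2 := by
    generalize n * τ = P at *
    omega
  obtain ⟨h4, h5⟩ := h3
  have h6 : n = 9 * a j - 11 := by omega
  have h7 : n ∣ 3 * (x - (7 * a j - 8)) := ⟨-τ - 2, by
    have : n * (-τ - 2) = -(n * τ) - 2 * n := by ring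
    rw [this]
    omega⟩
  have h8 := C.cancel3 h7
  obtain ⟨s'', gi, gj, gl, gs⟩ := Cfg.normT2 hij hil hjl S1 S2 (7 * a j - 8) h8
  apply Concl.congr gs
  refine ⟨3 * a j - 3, 5 * a j - 7, 5 * a j - 6, ?_, ?_⟩
  · intro hd
    obtain ⟨t, h1, h2, h3⟩ := dvd_bdd (by omega) hd 0 0 (by omega) (by omega)
    have : t = 0 := by omega
    subst this
    omega
  · intro m c h0 hc
    rcases fin3_cases i j l m hij hil hjl with rfl | rfl | rfl
    · exact Or.inr (Or.inr ⟨l, c, h0, by omega, -2, by rw [gi, gl]; omega⟩)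
    · by_cases h9 : c = a m - 2
      · exact Or.inl ⟨-2, by rw [gj]; omega⟩
      · by_cases h10 : c = a m - 1
        · exact Or.inr (Or.inl ⟨-2, by rw [gj]; omega⟩)
        · exact Or.inr (Or.inr ⟨i, c, by omega, by omega, -2, by rw [gj, gi]; omega⟩)
    · exact Or.inr (Or.inr ⟨j, c + 2, by omega, by omega, 5, by rw [gl, gj]; omega⟩)

end Pool.Agent.Helper92.FF
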