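import Mathlib
import Pool.Agent.Helper92.FF.P8Defs

/-!
# Three arcs: the types and the reflection
-/

set_option autoImplicit false

namespace Pool.Agent.Helper92.FF

lemma exists_third (i : Fin 3) : ∃ j l : Fin 3, i ≠ j ∧ i ≠ l ∧ j ≠ l := by
  revert i; decide

lemma exists_third' (i j : Fin 3) (h : i ≠ j) : ∃ l : Fin 3, i ≠ l ∧ j ≠ l := by
  revert i j; decide

lemma types_aux (P : Fin 3 → Fin 3 → Fin 3 → Prop) (s1 : ∀ i j l, P i j l → P j i l)
    (s2 : ∀ i j l, P i j l → P i l j) (h1 : ∀ i j p q, P i j p → P i j q → p = q)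
    (h2 : ∀ i j l, P i i l → P j j l → i = j) (h3 : ∀ i j, P i i i → P j j j → i = j)
    (H : ∀ i, ∃ j l, P i j l) :
    (∃ i j l, i ≠ j ∧ i ≠ l ∧ j ≠ l ∧ P i j l) ∨
    (∃ i j l, i ≠ j ∧ i ≠ l ∧ j ≠ l ∧ P i i j ∧ P l l l) ∨
    (∃ i j l, i ≠ j ∧ i ≠ l ∧ j ≠ l ∧ P i i j ∧ P j j l) := by
  by_cases h0 : ∃ i j l, i ≠ j ∧ i ≠ l ∧ j ≠ l ∧ P i j l
  · exact Or.inl h0
  right
  have nd : ∀ i j l, i ≠ j → i ≠ l → j ≠ l → ¬ P i j l :=
    fun i j l a b c hP => h0 ⟨i, j, l, a, b, c, hP⟩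
  by_cases hA : ∃ i, P i i i
  · left
    obtain ⟨i, hi⟩ := hA
    obtain ⟨j, l, hij, hil, hjl⟩ := exists_third i
    obtain ⟨u, v, huv⟩ := H j
    rcases fin3_cases i j l u hij hil hjl with rfl | rfl | rfl <;>
      rcases fin3_cases _ _ _ v hij hil hjl with rfl | rfl | rfl
    · exact absurd (h1 _ _ _ _ hi (s2 _ _ _ (s1 _ _ _ huv))) hij
    · exact absurd (h2 _ _ _ hi (s2 _ _ _ huv)) hij
    · exact absurd huv (nd _ _ _ hij.symm hjl hil)
    · exact absurd (h2 _ _ _ hi huv) hij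
    · exact absurd (h3 _ _ hi huv) hij
    · exact ⟨_, _, _, hjl, hij.symm, hil.symm, huv, hi⟩
    · exact absurd huv (nd _ _ _ hjl hij.symm hil.symm)
    · exact ⟨_, _, _, hjl, hij.symm, hil.symm, s2 _ _ _ huv, hi⟩
    · exact ⟨_, _, _, hjl.symm, hil.symm, hij.symm, s2 _ _ _ (s1 _ _ _ huv), hi⟩
  · right
    have hB : ∀ i, ∃ j, i ≠ j ∧ (P i i j ∨ P j j i) := by
      intro i
      obtain ⟨j, l, hij, hil, hjl⟩ := exists_third i
      obtain ⟨u, v, huv⟩ := H i
      rcases fin3_cases i j l u hij hil hjl with rfl | rfl | rfl <;>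
        rcases fin3_cases _ _ _ v hij hil hjl with rfl | rfl | rfl
      · exact absurd ⟨_, huv⟩ hA
      · exact ⟨_, hij, Or.inl huv⟩
      · exact ⟨_, hil, Or.inl huv⟩
      · exact ⟨_, hij, Or.inl (s2 _ _ _ huv)⟩
      · exact ⟨_, hij, Or.inr (s2 _ _ _ (s1 _ _ _ huv))⟩
      · exact absurd huv (nd _ _ _ hij hil hjl)
      · exact ⟨_, hil, Or.inl (s2 _ _ _ huv)⟩
      · exact absurd huv (nd _ _ _ hil hij hjl.symm)
      · exact ⟨_, hil, Or.inr (s2 _ _ _ (s1 _ _ _ huv))⟩
    have hC : ∃ p q, p ≠ q ∧ P p p q := by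
      obtain ⟨j, hj, h | h⟩ := hB 0
      · exact ⟨0, j, hj, h⟩
      · exact ⟨j, 0, hj.symm, h⟩
    obtain ⟨p, q, hpq, hP⟩ := hC
    obtain ⟨l, hpl, hql⟩ := exists_third' p q hpq
    obtain ⟨m, hm, hm2⟩ := hB l
    rcases fin3_cases p q l m hpq hpl hql with rfl | rfl | rfl
    · rcases hm2 with h | h
      · exact ⟨l, _, _, hpl.symm, hql.symm, hpq, h, hP⟩
      · exact absurd (h1 _ _ _ _ hP h) hql
    · rcases hm2 with h | h
      · exact absurd (h2 _ _ _ hP h) hpl
      · exact ⟨_, _, _, hpq, hpl, hql, hP, h⟩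
    · exact absurd rfl hm

/-- the three types -/
lemma types {n r : ℤ} (c3 : ∀ e, n ∣ 3 * e → n ∣ e) (c2 : ∀ e, n ∣ 2 * e → n ∣ e)
    (f : Fin 3 → ℤ) (hd : ∀ i j, i ≠ j → ¬ n ∣ f i - f j)
    (H : ∀ i, ∃ j l, n ∣ f i + f j + f l - r) :
    (∃ i j l, i ≠ j ∧ i ≠ l ∧ j ≠ l ∧ n ∣ f i + f j + f l - r) ∨
    (∃ i j l, i ≠ j ∧ i ≠ l ∧ j ≠ l ∧ n ∣ 2 * f i + f j - r ∧ n ∣ 3 * f l - r) ∨
    (∃ i j l, i ≠ j ∧ i ≠ l ∧ j ≠ l ∧ n ∣ 2 * f i + f j - r ∧ n ∣ 2 * f j + f l - r) := by
  have key := types_aux (fun i j l => n ∣ f i + f j + f l - r)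
    (fun i j l h => by
      show n ∣ _
      have e : f j + f i + f l - r = f i + f j + f l - r := by ring
      rw [e]; exact h)
    (fun i j l h => by
      show n ∣ _
      have e : f i + f l + f j - r = f i + f j + f l - r := by ring
      rw [e]; exact h)
    (fun i j p q h h' => by
      by_contra hne
      apply hd p q hne
      have h4 := dvd_sub h h'
      have e : f i + f j + f p - r - (f i + f j + f q - r) = f p - f q := by ring
      rwa [e] at h4)
    (fun i j l h h' => by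
      by_contra hne
      apply hd i j hne
      have h4 := dvd_sub h h'
      have e : f i + f i + f l - r - (f j + f j + f l - r) = 2 * (f i - f j) := by ring
      rw [e] at h4
      exact c2 _ h4)
    (fun i j h h' => by
      by_contra hne
      apply hd i j hne
      have h4 := dvd_sub h h'
      have e : f i + f i + f i - r - (f j + f j + f j - r) = 3 * (f i - f j) := by ring
      rw [e] at h4
      exact c3 _ h4) H
  rcases key with h | ⟨i, j, l, h1, h2, h3, h4, h5⟩ | ⟨i, j, l, h1, h2, h3, h4, h5⟩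
  · exact Or.inl h
  · refine Or.inr (Or.inl ⟨i, j, l, h1, h2, h3, ?_, ?_⟩)
    · have e : 2 * f i + f j - r = f i + f i + f j - r := by ring
      rw [e]; exact h4
    · have e : 3 * f l - r = f l + f l + f l - r := by ring
      rw [e]; exact h5
  · refine Or.inr (Or.inr ⟨i, j, l, h1, h2, h3, ?_, ?_⟩)
    · have e : 2 * f i + f j - r = f i + f i + f j - r := by ring
      rw [e]; exact h4
    · have e : 2 * f j + f l - r = f j + f j + f l - r := by ring
      rw [e]; exact h5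

variable {n k : ℤ} {s a : Fin 3 → ℤ}

/-- the starts of the reflected set -/
def rf (s a : Fin 3 → ℤ) : Fin 3 → ℤ := fun i => 1 - (s i + a i)

lemma Cfg.refl (C : Cfg n k s a) : Cfg n k (rf s a) a where
  hn := C.hn
  hk := C.hk
  hev := C.hev
  pos := C.pos
  sum := C.sum
  D1 := fun i j hij c h0 h1 hd => C.D2 i j hij (a i - c) (by omega) (by omega) (by
    have h := dvd_neg.2 hd
    have e : -(rf s a i + c - rf s a j) = s i + (a i - c) - (s j + a j) := by
      unfold rf; ring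
    rwa [e] at h)
  D2 := fun i j hij c h0 h1 hd => C.D1 i j hij (a i - c) (by omega) (by omega) (by
    have h := dvd_neg.2 hd
    have e : -(rf s a i + c - (rf s a j + a j)) = s i + (a i - c) - s j := by
      unfold rf; ring
    rwa [e] at h)
  J := fun i j l c h0 h1 hd => C.J i j l (a i + a j + a l - 3 - c) (by omega) (by omega) (by
    have h := dvd_neg.2 hd
    have e : -(rf s a i + rf s a j + rf s a l + c) =
        s i + s j + s l + (a i + a j + a l - 3 - c) := by
      unfold rf; ring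
    rwa [e] at h)

lemma Concl.refl (H : Concl n (rf s a) a) : Concl n s a := by
  obtain ⟨σ, u, v, hσ, H⟩ := H
  refine ⟨-σ, -u, -v, fun h => hσ (by simpa using h), fun i c h0 h1 => ?_⟩
  rcases H i (a i - 1 - c) (by omega) (by omega) with h2 | h2 | ⟨j, d, hd0, hd1, h2⟩
  · left
    have h := dvd_neg.2 h2
    have e : -(rf s a i + (a i - 1 - c) - u) = s i + c - -u := by unfold rf; ring
    rwa [e] at h
  · right; left
    have h := dvd_neg.2 h2
    have e : -(rf s a i + (a i - 1 - c) - v) = s i + c - -v := by unfold rf; ring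
    rwa [e] at h
  · right; right
    refine ⟨j, a j - 1 - d, by omega, by omega, ?_⟩
    have h := dvd_neg.2 h2
    have e : -(rf s a i + (a i - 1 - c) + σ - (rf s a j + d)) =
        s i + c + -σ - (s j + (a j - 1 - d)) := by unfold rf; ring
    rwa [e] at h

/-- the number `2` can be cancelled -/
lemma Cfg.cancel2 (C : Cfg n k s a) {e : ℤ} (h : n ∣ 2 * e) : n ∣ e := by
  have h1 : e = n * e - (3 * (k / 2)) * (2 * e) := by
    have h2 := C.hn
    have h3 := C.hev
    have h4 : k = 2 * (k / 2) := by omega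
    have h5 : n = 3 * (2 * (k / 2)) + 1 := by rw [← h4]; exact h2
    rw [h5]; ring
  rw [h1]
  exact dvd_sub (dvd_mul_right _ _) (dvd_mul_of_dvd_right h _)

end Pool.Agent.Helper92.FF
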