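import Mathlib
import Pool.Agent.Helper20.FF.Scale
import Pool.Agent.Helper43.FF.Runs
import Pool.Agent.Helper55.FF.P8Cases
import Pool.Agent.Helper92.FF.P8T2
import Pool.Agent.Helper92.FF.P8Types

/-!
# Three arcs: assembly
-/

set_option autoImplicit false

open scoped Pointwise

namespace Pool.Agent.Helper92.FF

open Pool.Agent.Helper82.Kneser Pool.Agent.Helper20.Span Pool.Agent.Helper20.FF

section cfg

variable {n k : ℤ} {s a : Fin 3 → ℤ}

lemma perm3 (i j l p q r : Fin 3) (hij : i ≠ j) (hil : i ≠ l) (hjl : j ≠ l) (hpq : p ≠ q)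
    (hpr : p ≠ r) (hqr : q ≠ r) :
    (p = i ∧ q = j ∧ r = l) ∨ (p = i ∧ q = l ∧ r = j) ∨ (p = j ∧ q = i ∧ r = l) ∨
    (p = j ∧ q = l ∧ r = i) ∨ (p = l ∧ q = i ∧ r = j) ∨ (p = l ∧ q = j ∧ r = i) := by
  revert i j l p q r; decide

/-- type T0 for the starts -/
lemma concl_0 (C : Cfg n k s a) {i j l : Fin 3} (hij : i ≠ j) (hil : i ≠ l) (hjl : j ≠ l)
    (S : n ∣ s i + s j + s l - 1)
    (HE : (∃ i j l, i ≠ j ∧ i ≠ l ∧ j ≠ l ∧
        n ∣ s i + a i + (s j + a j) + (s l + a l) - 2) ∨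
      (∃ i j l, i ≠ j ∧ i ≠ l ∧ j ≠ l ∧ n ∣ 2 * (s i + a i) + (s j + a j) - 2 ∧
        n ∣ 3 * (s l + a l) - 2) ∨
      (∃ i j l, i ≠ j ∧ i ≠ l ∧ j ≠ l ∧ n ∣ 2 * (s i + a i) + (s j + a j) - 2 ∧
        n ∣ 2 * (s j + a j) + (s l + a l) - 2)) : False := by
  have key : ∀ p q r : Fin 3, p ≠ q → p ≠ r → q ≠ r → n ∣ s p + s q + s r - 1 := by
    intro p q r h1 h2 h3
    have e : s p + s q + s r - 1 = s i + s j + s l - 1 := by
      rcases perm3 i j l p q r hij hil hjl h1 h2 h3 with ⟨rfl, rfl, rfl⟩ | ⟨rfl, rfl, rfl⟩ |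
        ⟨rfl, rfl, rfl⟩ | ⟨rfl, rfl, rfl⟩ | ⟨rfl, rfl, rfl⟩ | ⟨rfl, rfl, rfl⟩ <;> ring
    rw [e]; exact S
  rcases HE with ⟨p, q, r, h1, h2, h3, h4⟩ | ⟨p, q, r, h1, h2, h3, h4, h5⟩ |
    ⟨p, q, r, h1, h2, h3, h4, h5⟩
  · exact C.same (key p q r h1 h2 h3) h4
  · exact Pool.Agent.Helper55.FF.case_01 C h1 h2 h3 (key p q r h1 h2 h3) h4 h5
  · exact Pool.Agent.Helper55.FF.case_02 C h1 h2 h3 (key p q r h1 h2 h3) h4 h5

lemma same2 (C : Cfg n k s a) {i j : Fin 3} (h1 : n ∣ 2 * s i + s j - 1)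
    (h2 : n ∣ 2 * (s i + a i) + (s j + a j) - 2) : False := by
  apply C.same (i := i) (j := i) (l := j)
  · have e : s i + s i + s j - 1 = 2 * s i + s j - 1 := by ring
    rw [e]; exact h1
  · have e : s i + a i + (s i + a i) + (s j + a j) - 2 = 2 * (s i + a i) + (s j + a j) - 2 := by
      ring
    rw [e]; exact h2

lemma same3 (C : Cfg n k s a) {i : Fin 3} (h1 : n ∣ 3 * s i - 1)
    (h2 : n ∣ 3 * (s i + a i) - 2) : False := by
  apply C.same (i := i) (j := i) (l := i)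
  · have e : s i + s i + s i - 1 = 3 * s i - 1 := by ring
    rw [e]; exact h1
  · have e : s i + a i + (s i + a i) + (s i + a i) - 2 = 3 * (s i + a i) - 2 := by
      ring
    rw [e]; exact h2

lemma concl_11 (C : Cfg n k s a) {i j l : Fin 3} (hij : i ≠ j) (hil : i ≠ l) (hjl : j ≠ l)
    (S1 : n ∣ 2 * s i + s j - 1) (S2 : n ∣ 3 * s l - 1) {p q r : Fin 3} (hpq : p ≠ q)
    (hpr : p ≠ r) (hqr : q ≠ r) (E1 : n ∣ 2 * (s p + a p) + (s q + a q) - 2)
    (E2 : n ∣ 3 * (s r + a r) - 2) : Concl n s a := by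
  rcases perm3 i j l p q r hij hil hjl hpq hpr hqr with ⟨rfl, rfl, rfl⟩ | ⟨rfl, rfl, rfl⟩ |
        ⟨rfl, rfl, rfl⟩ | ⟨rfl, rfl, rfl⟩ | ⟨rfl, rfl, rfl⟩ | ⟨rfl, rfl, rfl⟩
  · exact (same2 C S1 E1).elim
  · exact (Pool.Agent.Helper55.FF.case_11_ilj C hij hil hjl S1 S2 E1 E2).elim
  · exact (same3 C S2 E2).elim
  · exact (Pool.Agent.Helper55.FF.case_11_jli C hij hil hjl S1 S2 E1 E2).elim
  · exact (Pool.Agent.Helper55.FF.case_11_lij C hij hil hjl S1 S2 E1 E2).elim
  · exact Pool.Agent.Helper55.FF.case_11_lji C hij hil hjl S1 S2 E1 E2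

lemma concl_12 (C : Cfg n k s a) {i j l : Fin 3} (hij : i ≠ j) (hil : i ≠ l) (hjl : j ≠ l)
    (S1 : n ∣ 2 * s i + s j - 1) (S2 : n ∣ 3 * s l - 1) {p q r : Fin 3} (hpq : p ≠ q)
    (hpr : p ≠ r) (hqr : q ≠ r) (E1 : n ∣ 2 * (s p + a p) + (s q + a q) - 2)
    (E2 : n ∣ 2 * (s q + a q) + (s r + a r) - 2) : Concl n s a := by
  rcases perm3 i j l p q r hij hil hjl hpq hpr hqr with ⟨rfl, rfl, rfl⟩ | ⟨rfl, rfl, rfl⟩ |
        ⟨rfl, rfl, rfl⟩ | ⟨rfl, rfl, rfl⟩ | ⟨rfl, rfl, rfl⟩ | ⟨rfl, rfl, rfl⟩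
  · exact (same2 C S1 E1).elim
  · exact (Pool.Agent.Helper55.FF.case_12_ilj C hij hil hjl S1 S2 E1 E2).elim
  · exact Pool.Agent.Helper55.FF.case_12_jil C hij hil hjl S1 S2 E1 E2
  · exact (Pool.Agent.Helper55.FF.case_12_jli C hij hil hjl S1 S2 E1 E2).elim
  · exact (same2 C S1 E2).elim
  · exact (Pool.Agent.Helper55.FF.case_12_lji C hij hil hjl S1 S2 E1 E2).elim

lemma concl_22 (C : Cfg n k s a) {i j l : Fin 3} (hij : i ≠ j) (hil : i ≠ l) (hjl : j ≠ l)
    (S1 : n ∣ 2 * s i + s j - 1) (S2 : n ∣ 2 * s j + s l - 1) {p q r : Fin 3} (hpq : p ≠ q)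
    (hpr : p ≠ r) (hqr : q ≠ r) (E1 : n ∣ 2 * (s p + a p) + (s q + a q) - 2)
    (E2 : n ∣ 2 * (s q + a q) + (s r + a r) - 2) : Concl n s a := by
  rcases perm3 i j l p q r hij hil hjl hpq hpr hqr with ⟨rfl, rfl, rfl⟩ | ⟨rfl, rfl, rfl⟩ |
        ⟨rfl, rfl, rfl⟩ | ⟨rfl, rfl, rfl⟩ | ⟨rfl, rfl, rfl⟩ | ⟨rfl, rfl, rfl⟩
  · exact (same2 C S1 E1).elim
  · exact case_22_ilj C hij hil hjl S1 S2 E1 E2
  · exact case_22_jil C hij hil hjl S1 S2 E1 E2
  · exact (same2 C S2 E1).elim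
  · exact (same2 C S1 E2).elim
  · exact case_22_lji C hij hil hjl S1 S2 E1 E2

lemma rf_S2 {i j : Fin 3} (h : n ∣ 2 * (s i + a i) + (s j + a j) - 2) :
    n ∣ 2 * rf s a i + rf s a j - 1 := by
  have h' := dvd_neg.2 h
  have e : -(2 * (s i + a i) + (s j + a j) - 2) = 2 * rf s a i + rf s a j - 1 := by
    unfold rf; ring
  rwa [e] at h'

lemma rf_S3 {i : Fin 3} (h : n ∣ 3 * (s i + a i) - 2) : n ∣ 3 * rf s a i - 1 := by
  have h' := dvd_neg.2 h
  have e : -(3 * (s i + a i) - 2) = 3 * rf s a i - 1 := by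
    unfold rf; ring
  rwa [e] at h'

lemma rf_S0 {i j l : Fin 3} (h : n ∣ s i + a i + (s j + a j) + (s l + a l) - 2) :
    n ∣ rf s a i + rf s a j + rf s a l - 1 := by
  have h' := dvd_neg.2 h
  have e : -(s i + a i + (s j + a j) + (s l + a l) - 2) = rf s a i + rf s a j + rf s a l - 1 := by
    unfold rf; ring
  rwa [e] at h'

lemma rf_E2 {i j : Fin 3} (h : n ∣ 2 * s i + s j - 1) :
    n ∣ 2 * (rf s a i + a i) + (rf s a j + a j) - 2 := by
  have h' := dvd_neg.2 h
  have e : -(2 * s i + s j - 1) = 2 * (rf s a i + a i) + (rf s a j + a j) - 2 := by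
    unfold rf; ring
  rwa [e] at h'

lemma rf_E3 {i : Fin 3} (h : n ∣ 3 * s i - 1) : n ∣ 3 * (rf s a i + a i) - 2 := by
  have h' := dvd_neg.2 h
  have e : -(3 * s i - 1) = 3 * (rf s a i + a i) - 2 := by
    unfold rf; ring
  rwa [e] at h'

lemma rf_E0 {i j l : Fin 3} (h : n ∣ s i + s j + s l - 1) :
    n ∣ rf s a i + a i + (rf s a j + a j) + (rf s a l + a l) - 2 := by
  have h' := dvd_neg.2 h
  have e : -(s i + s j + s l - 1) =
      rf s a i + a i + (rf s a j + a j) + (rf s a l + a l) - 2 := by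
    unfold rf; ring
  rwa [e] at h'

theorem cfg_concl (C : Cfg n k s a) (HS : ∀ i, ∃ j l, n ∣ s i + s j + s l - 1)
    (HE : ∀ i, ∃ j l, n ∣ s i + a i + (s j + a j) + (s l + a l) - 2) : Concl n s a := by
  have tS := types (fun e => C.cancel3) (fun e => C.cancel2) s
    (fun i j hij h => C.D1 i j hij 0 le_rfl (by have := C.pos i; omega) (by simpa using h)) HS
  have tE := types (fun e => C.cancel3) (fun e => C.cancel2) (fun i => s i + a i)
    (fun i j hij h => C.D2 i j hij (a i) (by have := C.pos i; omega) le_rfl h) HE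
  rcases tS with ⟨i, j, l, h1, h2, h3, h4⟩ | ⟨i, j, l, h1, h2, h3, h4, h5⟩ |
    ⟨i, j, l, h1, h2, h3, h4, h5⟩
  · exact (concl_0 C h1 h2 h3 h4 tE).elim
  · rcases tE with ⟨p, q, r, g1, g2, g3, g4⟩ | ⟨p, q, r, g1, g2, g3, g4, g5⟩ |
      ⟨p, q, r, g1, g2, g3, g4, g5⟩
    · exact (concl_0 C.refl g1 g2 g3 (rf_S0 g4)
        (Or.inr (Or.inl ⟨i, j, l, h1, h2, h3, rf_E2 h4, rf_E3 h5⟩))).elim
    · exact concl_11 C h1 h2 h3 h4 h5 g1 g2 g3 g4 g5
    · exact concl_12 C h1 h2 h3 h4 h5 g1 g2 g3 g4 g5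
  · rcases tE with ⟨p, q, r, g1, g2, g3, g4⟩ | ⟨p, q, r, g1, g2, g3, g4, g5⟩ |
      ⟨p, q, r, g1, g2, g3, g4, g5⟩
    · exact (concl_0 C.refl g1 g2 g3 (rf_S0 g4)
        (Or.inr (Or.inr ⟨i, j, l, h1, h2, h3, rf_E2 h4, rf_E2 h5⟩))).elim
    · exact Concl.refl (concl_12 C.refl g1 g2 g3 (rf_S2 g4) (rf_S3 g5) h1 h2 h3 (rf_E2 h4)
        (rf_E2 h5))
    · exact concl_22 C h1 h2 h3 h4 h5 g1 g2 g3 g4 g5

end cfg

/-- four elements -/
lemma four_case {n : ℕ} [NeZero n] (hn : n = 13) {A : Finset (ZMod n)} (hA : A.card = 4)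
    (hcomp : ∀ y, y ∈ A ↔ -y ∉ A + A) :
    ∃ s : ZMod n, s ≠ 0 ∧ (A ∪ tr A s).card ≤ 4 + 2 := by
  have h1 : (A + A).card = 9 := by
    have h2 : A.image (fun y => -y) = Finset.univ \ (A + A) := by
      ext x
      rw [Finset.mem_image, Finset.mem_sdiff]
      constructor
      · rintro ⟨y, hy, rfl⟩
        exact ⟨Finset.mem_univ _, (hcomp y).1 hy⟩
      · rintro ⟨-, hx⟩
        exact ⟨-x, (hcomp (-x)).2 (by rwa [neg_neg]), neg_neg x⟩
    have h3 : (A.image (fun y => -y)).card = 4 := by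
      rw [Finset.card_image_of_injective _ neg_injective, hA]
    rw [h2, Finset.card_sdiff_of_subset (Finset.subset_univ _), Finset.card_univ, ZMod.card] at h3
    have h4 := Finset.card_le_univ (A + A)
    rw [ZMod.card] at h4
    omega
  have h5 : A.sym2.card = 10 := by
    rw [Finset.card_sym2, hA]; rfl
  obtain ⟨p, hp, q, hq, hpq, he⟩ := Finset.exists_ne_map_eq_of_card_lt_of_maps_to
    (s := A.sym2) (t := A + A) (by omega)
    (f := Sym2.lift ⟨fun x y => x + y, fun x y => add_comm x y⟩) (by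
      intro p hp
      induction p using Sym2.ind with
      | h x y =>
        have h6 := Finset.mk_mem_sym2_iff.1 (Finset.mem_coe.1 hp)
        exact Finset.mem_coe.2 (Finset.add_mem_add h6.1 h6.2))
  induction p using Sym2.ind with
  | h x y =>
    induction q using Sym2.ind with
    | h z w =>
      have h6 := Finset.mk_mem_sym2_iff.1 hp
      have h7 := Finset.mk_mem_sym2_iff.1 hq
      have he' : x + y = z + w := he
      refine ⟨x - z, ?_, ?_⟩
      · intro h0
        have hxz : x = z := sub_eq_zero.1 h0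
        subst hxz
        have : y = w := add_left_cancel he'
        exact hpq (by rw [this])
      · have hne : x ≠ w := by
          rintro rfl
          have : y = z := by
            rw [add_comm z x] at he'
            exact add_left_cancel he'
          exact hpq (by rw [this, Sym2.eq_swap])
        have h8 : ({x, w} : Finset (ZMod n)) ⊆ A ∩ tr A (x - z) := by
          intro t ht
          rw [Finset.mem_insert, Finset.mem_singleton] at ht
          rw [Finset.mem_inter, mem_tr]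
          rcases ht with rfl | rfl
          · exact ⟨h6.1, by rw [sub_sub_cancel]; exact h7.1⟩
          · refine ⟨h7.2, ?_⟩
            have : t - (x - z) = y := by
              rw [sub_eq_iff_eq_add]
              have : y + (x - z) = x + y - z := by ring
              rw [this, he']; ring
            rw [this]; exact h6.2
        have h9 := Finset.card_le_card h8
        rw [Finset.card_pair hne] at h9
        have h10 := Finset.card_union_add_card_inter A (tr A (x - z))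
        rw [card_tr, hA] at h10
        omega

/-- three arcs of a set `A` with `A = G \ -2A`: difference one -/
lemma three_arcs_one {n k : ℕ} [NeZero n] (hn : n = 3 * k + 1) (hk : Even k) (hk6 : 6 ≤ k)
    {A : Finset (ZMod n)} (hA : A.card = k) (hcomp : ∀ y, y ∈ A ↔ -y ∉ A + A)
    (h3 : (A ∪ tr A 1).card = k + 3) :
    ∃ s : ZMod n, s ≠ 0 ∧ (A ∪ tr A s).card ≤ k + 2 := by
  have hne : A ≠ Finset.univ := by
    intro h
    rw [h, Finset.card_univ, ZMod.card] at hA
    omega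
  obtain ⟨t, b, -, hb1, hbs, hmem, hpre, hpost, huniq⟩ :=
    Pool.Agent.Helper43.FF.arcs n 3 hne (by rw [h3, hA])
  -- integer data
  set s : Fin 3 → ℤ := fun i => ((t i).val : ℤ) with hs
  set a : Fin 3 → ℤ := fun i => (b i : ℤ) with ha
  have hsc : ∀ i, ((s i : ℤ) : ZMod n) = t i := by
    intro i
    rw [hs]
    simp
  have hac : ∀ i, ((a i : ℤ) : ZMod n) = (b i : ZMod n) := by
    intro i
    rw [ha]
    simp
  have hdvd : ∀ e : ℤ, (n : ℤ) ∣ e ↔ ((e : ℤ) : ZMod n) = 0 := fun e =>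
    (ZMod.intCast_zmod_eq_zero_iff_dvd e n).symm
  -- members
  have hin : ∀ i, ∀ c : ℤ, 0 ≤ c → c < a i → t i + ((c : ℤ) : ZMod n) ∈ A := by
    intro i c h0 h1
    rw [hmem]
    obtain ⟨m, rfl⟩ := Int.eq_ofNat_of_zero_le h0
    refine ⟨i, m, ?_, by simp⟩
    rw [ha] at h1
    simpa using h1
  have hout : ∀ x, x ∈ A → ∃ i, ∃ c : ℤ, 0 ≤ c ∧ c < a i ∧ x = t i + ((c : ℤ) : ZMod n) := by
    intro x hx
    obtain ⟨i, c, h1, h2⟩ := (hmem x).1 hx
    refine ⟨i, c, by positivity, ?_, by rw [h2]; simp⟩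
    rw [ha]
    simpa using h1
  have hzero : ∀ x ∈ A, ∀ y ∈ A, ∀ z ∈ A, x + y + z ≠ 0 := by
    intro x hx y hy z hz h
    apply (hcomp x).1 hx
    have : -x = y + z := by
      rw [neg_eq_iff_add_eq_zero]
      rw [← h]; ring
    rw [this]
    exact Finset.add_mem_add hy hz
  have hapos : ∀ i, 1 ≤ a i := by
    intro i
    rw [ha]
    have := hb1 i
    simp only
    omega
  have hpost' : ∀ i, t i + ((a i : ℤ) : ZMod n) ∉ A := by
    intro i
    rw [hac]
    exact hpost i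
  have huniq' : ∀ i j, ∀ c d : ℤ, 0 ≤ c → c < a i → 0 ≤ d → d < a j →
      t i + ((c : ℤ) : ZMod n) = t j + ((d : ℤ) : ZMod n) → i = j := by
    intro i j c d h0 h1 g0 g1 h
    obtain ⟨m, rfl⟩ := Int.eq_ofNat_of_zero_le h0
    obtain ⟨m', rfl⟩ := Int.eq_ofNat_of_zero_le g0
    rw [ha] at h1 g1
    exact (huniq i j m m' (by simpa using h1) (by simpa using g1) (by simpa using h)).1
  have C : Cfg (n : ℤ) (k : ℤ) s a := by
    refine ⟨by rw [hn]; push_cast; ring, by exact_mod_cast hk6, ?_, hapos, ?_, ?_, ?_, ?_⟩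
    · obtain ⟨m, hm⟩ := hk
      omega
    · rw [Fin.sum_univ_three] at hbs
      rw [ha]
      simp only
      omega
    · intro i j hij c h0 h1 hd
      rw [hdvd] at hd
      push_cast at hd
      rw [hsc, hsc, sub_eq_zero] at hd
      rcases lt_or_eq_of_le h1 with h2 | h2
      · exact hij (huniq' i j c 0 h0 h2 le_rfl (by have := hapos j; omega) (by rw [hd]; simp))
      · apply hpost' i
        rw [← h2, hd]
        have := hin j 0 le_rfl (by have := hapos j; omega)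
        simpa using this
    · intro i j hij c h0 h1 hd
      rw [hdvd] at hd
      push_cast at hd
      rw [hsc, hsc, sub_eq_zero] at hd
      rcases lt_or_eq_of_le h1 with h2 | h2
      · apply hpost' j
        rw [← hd]
        exact hin i c h0 h2
      · subst h2
        apply hij
        apply huniq' i j (a i - 1) (a j - 1) (by have := hapos i; omega) (by omega)
          (by have := hapos j; omega) (by omega)
        push_cast
        rw [← add_sub_assoc, ← add_sub_assoc, hd]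
    · intro i j l c h0 h1 hd
      rw [hdvd] at hd
      have key : ∃ c1 c2 c3 : ℤ, 0 ≤ c1 ∧ c1 < a i ∧ 0 ≤ c2 ∧ c2 < a j ∧ 0 ≤ c3 ∧ c3 < a l ∧
          c = c1 + c2 + c3 := by
        have p1 := hapos i
        have p2 := hapos j
        have p3 := hapos l
        refine ⟨min c (a i - 1), min (c - min c (a i - 1)) (a j - 1),
          c - min c (a i - 1) - min (c - min c (a i - 1)) (a j - 1), ?_, ?_, ?_, ?_, ?_, ?_, ?_⟩
          <;> omega
      obtain ⟨c1, c2, c3, e1, e2, e3, e4, e5, e6, rfl⟩ := key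
      apply hzero _ (hin i c1 e1 e2) _ (hin j c2 e3 e4) _ (hin l c3 e5 e6)
      push_cast at hd
      rw [hsc, hsc, hsc] at hd
      rw [← hd]; ring
  have HS : ∀ i, ∃ j l, (n : ℤ) ∣ s i + s j + s l - 1 := by
    intro i
    have h1 : 1 - t i ∈ A + A := by
      have h2 := hpre i
      rw [hcomp] at h2
      push Not at h2
      rwa [neg_sub] at h2
    obtain ⟨x, hx, y, hy, hxy⟩ := Finset.mem_add.1 h1
    have hti : t i ∈ A := by
      have := hin i 0 le_rfl (by have := hapos i; omega)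
      simpa using this
    have hstart : ∀ x y, x ∈ A → y ∈ A → x + y = 1 - t i → ∃ j, x = t j := by
      intro x y hx hy hxy
      obtain ⟨j, c, h0, h1, h2⟩ := hout x hx
      rcases eq_or_lt_of_le h0 with h3 | h3
      · exact ⟨j, by rw [h2, ← h3]; simp⟩
      · exfalso
        have h4 := hin j (c - 1) (by omega) (by omega)
        apply hzero _ h4 _ hy _ hti
        push_cast
        rw [← add_sub_assoc, ← h2]
        have : x - 1 + y + t i = x + y + t i - 1 := by ring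
        rw [this, hxy]; ring
    obtain ⟨j, rfl⟩ := hstart x y hx hy hxy
    obtain ⟨l, rfl⟩ := hstart y _ hy hx (by rw [add_comm]; exact hxy)
    refine ⟨j, l, ?_⟩
    rw [hdvd]
    push_cast
    rw [hsc, hsc, hsc, add_assoc, hxy]
    ring
  have HE : ∀ i, ∃ j l, (n : ℤ) ∣ s i + a i + (s j + a j) + (s l + a l) - 2 := by
    intro i
    have h1 : -(t i + ((a i : ℤ) : ZMod n)) ∈ A + A := by
      have h2 := hpost' i
      rw [hcomp] at h2
      push Not at h2
      exact h2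
    obtain ⟨x, hx, y, hy, hxy⟩ := Finset.mem_add.1 h1
    have hti : t i + ((a i - 1 : ℤ) : ZMod n) ∈ A :=
      hin i (a i - 1) (by have := hapos i; omega) (by omega)
    have hend : ∀ x y, x ∈ A → y ∈ A → x + y = -(t i + ((a i : ℤ) : ZMod n)) →
        ∃ j, x = t j + ((a j : ℤ) : ZMod n) - 1 := by
      intro x y hx hy hxy
      obtain ⟨j, c, h0, h1, h2⟩ := hout x hx
      rcases eq_or_lt_of_le (show c ≤ a j - 1 by omega) with h3 | h3
      · exact ⟨j, by rw [h2, h3]; push_cast; ring⟩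
      · exfalso
        have h4 := hin j (c + 1) (by omega) (by omega)
        apply hzero _ h4 _ hy _ hti
        push_cast
        have : t j + ((c : ZMod n) + 1) + y + (t i + (((a i : ℤ) : ZMod n) - 1)) =
            (t j + (c : ZMod n)) + y + (t i + ((a i : ℤ) : ZMod n)) := by ring
        rw [this, ← h2, hxy]; ring
    obtain ⟨j, rfl⟩ := hend x y hx hy hxy
    obtain ⟨l, rfl⟩ := hend y _ hy hx (by rw [add_comm]; exact hxy)
    refine ⟨j, l, ?_⟩
    rw [hdvd]
    push_cast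
    rw [hsc, hsc, hsc]
    have h5 : t i + ((a i : ℤ) : ZMod n) + (t j + ((a j : ℤ) : ZMod n)) +
        (t l + ((a l : ℤ) : ZMod n)) - 2 = t i + ((a i : ℤ) : ZMod n) +
        ((t j + ((a j : ℤ) : ZMod n) - 1) + (t l + ((a l : ℤ) : ZMod n) - 1)) := by ring
    rw [h5, hxy]; ring
  obtain ⟨σ, u, v, hσ, H⟩ := cfg_concl C HS HE
  refine ⟨(σ : ZMod n), fun h => hσ ((hdvd σ).2 h), ?_⟩
  have hsub : A ∪ tr A (σ : ZMod n) ⊆ A ∪ {(u : ZMod n) + σ, (v : ZMod n) + σ} := by
    intro x hx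
    rw [Finset.mem_union, mem_tr] at hx
    rw [Finset.mem_union]
    rcases hx with hx | hx
    · exact Or.inl hx
    · obtain ⟨i, c, h0, h1, h2⟩ := hout _ hx
      rw [Finset.mem_insert, Finset.mem_singleton]
      rcases H i c h0 h1 with h4 | h4 | ⟨j, d, g0, g1, h4⟩
      · rw [hdvd] at h4
        push_cast at h4
        rw [hsc, ← h2, sub_eq_zero] at h4
        exact Or.inr (Or.inl (by rw [← h4]; ring))
      · rw [hdvd] at h4
        push_cast at h4
        rw [hsc, ← h2, sub_eq_zero] at h4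
        exact Or.inr (Or.inr (by rw [← h4]; ring))
      · rw [hdvd] at h4
        push_cast at h4
        rw [hsc, hsc, ← h2, sub_add_cancel, sub_eq_zero] at h4
        exact Or.inl (by rw [h4]; exact hin j d g0 g1)
  calc (A ∪ tr A (σ : ZMod n)).card ≤ _ := Finset.card_le_card hsub
    _ ≤ A.card + ({(u : ZMod n) + σ, (v : ZMod n) + σ} : Finset (ZMod n)).card :=
        Finset.card_union_le _ _
    _ ≤ k + 2 := by
        have := Finset.card_le_two (a := (u : ZMod n) + σ) (b := (v : ZMod n) + σ)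
        omega

/-- (P8) three arcs, `A = G \ -2A` -/
theorem three_arcs (n k : ℕ) [NeZero n] (hn : n = 3 * k + 1) (hk : Even k) (hk4 : 4 ≤ k)
    {A : Finset (ZMod n)} (hA : A.card = k) (hcomp : ∀ y, y ∈ A ↔ -y ∉ A + A)
    {r : ZMod n} (hr : IsUnit r) (h2 : (A ∪ tr A r).card = k + 3) :
    ∃ s : ZMod n, s ≠ 0 ∧ (A ∪ tr A s).card ≤ k + 2 := by
  by_cases h4 : k = 4
  · subst h4
    exact four_case (by omega) hA hcomp
  · have hk6 : 6 ≤ k := by
      obtain ⟨m, hm⟩ := hk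
      omega
    obtain ⟨u, hu⟩ := hr.exists_left_inv
    have hur : u * r = 1 := hu
    obtain ⟨s, hs, hcard⟩ := three_arcs_one hn hk hk6 (A := sc u A)
      (by rw [card_sc hur]; exact hA) (comp_sc hur hcomp)
      (by rw [← hur, pair_sc hur]; exact h2)
    refine ⟨r * s, ?_, ?_⟩
    · intro h
      apply hs
      have : u * (r * s) = s := by rw [← mul_assoc, hur, one_mul]
      rw [← this, h, mul_zero]
    · have h5 := pair_sc hur A (r * s)
      have : u * (r * s) = s := by rw [← mul_assoc, hur, one_mul]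
      rw [this] at h5
      rw [← h5]
      exact hcard

end Pool.Agent.Helper92.FF
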